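import Pool.Agent.E8helper55.DB.Stm

/-!
# DB / ASM (helper87)
-/

set_option autoImplicit false

namespace Pool.Agent.E8helper87.DB

open Finset Module
open Pool.Agent.Results.MP_db4732_co.PolynomialCertificates
open Pool.Agent.E8helper55.DB

variable {n : ℕ}

/-- a good point of a Boolean combination lies on a large flat contained in it -/
theorem key {L : Finset (Finset (V n))} {M : Set (V n)} {k : ℕ} {x : V n}
    (hL : ∀ y y' : V n, (∀ B ∈ L, y ∈ B ↔ y' ∈ B) → (y ∈ M ↔ y' ∈ M)) (hx : x ∈ M)
    (hg : Good L univ k x) : OnFlat (n - k) M x := by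
  obtain ⟨C', _, ⟨_, hC⟩, hxC, hcard, hB⟩ := hg
  let W : Submodule (ZMod 2) (V n) :=
    { carrier := {w | x + w ∈ C'}
      add_mem' := by
        intro w w' hw hw'
        have h := hC _ hw _ hw' _ hxC
        have e : (x + w) + (x + w') + x = x + (w + w') := by
          have : (x + w) + (x + w') + x = (x + x) + (x + (w + w')) := by abel
          rw [this, Pool.Agent.R288.PC.neg_self, zero_add]
        rw [e] at h
        exact h
      zero_mem' := by
        change x + 0 ∈ C'
        rw [add_zero]; exact hxC
      smul_mem' := by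
        intro c w hw
        have hc : c = 0 ∨ c = 1 := by
          revert c; decide
        rcases hc with rfl | rfl
        · change x + (0 : ZMod 2) • w ∈ C'
          rw [zero_smul, add_zero]; exact hxC
        · change x + (1 : ZMod 2) • w ∈ C'
          rw [one_smul]; exact hw }
  have hW : ∀ w, w ∈ W ↔ x + w ∈ C' := fun w => Iff.rfl
  have h1 := card_flat x W C' (fun y => by
    rw [hW, ← add_assoc, Pool.Agent.R288.PC.neg_self, zero_add])
  refine ⟨W, ?_, ?_⟩
  · rw [h1, ← pow_add, card_univ, Fintype.card_fun, ZMod.card, Fintype.card_fin] at hcard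
    have := (Nat.pow_le_pow_iff_right (by norm_num)).1 hcard
    omega
  · intro w hw
    rw [hW] at hw
    refine (hL x (x + w) (fun B hBL => ?_)).1 hx
    rcases hB B hBL with h | h
    · exact ⟨fun _ => h hw, fun _ => h hxC⟩
    · rw [Finset.disjoint_left] at h
      exact ⟨fun h3 => absurd h3 (h hxC), fun h3 => absurd h3 (h hw)⟩

theorem asm_holds (h1 : PSI n) (h2 : TAIL n) : ASM n := by
  classical
  intro A hA d k s hcomb
  set SS := ∑ i ∈ range s, k.choose i with hSS
  have hgood := bound (K := ZMod 2) (D := n - (n - k)) hA d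
      (A.filter (fun a => OnFlat (n - k) (line A d (number d a)) (place d a)))
      (fun a ha => ⟨(mem_filter.1 ha).1, on_flat (n - k) _ _ (mem_filter.1 ha).2⟩)
  have hgood' : (A.filter (fun a => OnFlat (n - k) (line A d (number d a)) (place d a))).card ≤
      2 ^ n * ∑ i ∈ range (k + 1), n.choose i := by
    refine hgood.trans (Nat.mul_le_mul_left _ ?_)
    apply sum_le_sum_of_subset
    apply range_subset_range.2
    omega
  have huniv : (univ : Finset (V n)).card = 2 ^ n := by
    rw [card_univ, Fintype.card_fun, ZMod.card, Fintype.card_fin]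
  have hflat : Flat (univ : Finset (V n)) := ⟨univ_nonempty, fun _ _ _ _ _ _ => mem_univ _⟩
  have hfib : ∀ t : V n, ((A.filter (fun a => ¬ OnFlat (n - k) (line A d (number d a))
      (place d a))).filter (fun a => number d a = t)).card * 2 ^ k ≤ 2 ^ n * SS := by
    intro t
    obtain ⟨L, hL, hLs⟩ := hcomb t
    have h3 : ∑ B ∈ L, (Psi univ B ^ 2 - 1) < (s : ℝ) + 3 := by
      refine lt_of_le_of_lt (sum_le_sum fun B _ => ?_) hLs
      obtain ⟨g1, _, g2⟩ := h1 univ B hflat
      nlinarith
    have h4 := h2 L univ hflat k s h3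
    rw [huniv] at h4
    refine le_trans (Nat.mul_le_mul_right _ ?_) h4
    rw [← card_image_of_injOn (f := place d)]
    · apply card_le_card
      intro y hy
      obtain ⟨a, ha, rfl⟩ := mem_image.1 hy
      rw [mem_filter, mem_filter] at ha
      obtain ⟨⟨h5, h6⟩, rfl⟩ := ha
      rw [mem_filter]
      refine ⟨mem_univ _, fun hg => h6 ?_⟩
      exact key hL (place_mem d a h5) hg
    · intro a ha b hb hab
      rw [mem_coe, mem_filter] at ha hb
      exact place_inj d a b (ha.2.trans hb.2.symm) hab
  have hbad : (A.filter (fun a => ¬ OnFlat (n - k) (line A d (number d a))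
      (place d a))).card * 2 ^ k ≤ 4 ^ n * SS := by
    rw [card_eq_sum_card_fiberwise (f := number d) (t := univ) (fun _ _ => mem_univ _), sum_mul]
    refine (sum_le_sum fun t _ => hfib t).trans ?_
    rw [sum_const, huniv, smul_eq_mul, ← mul_assoc, ← mul_pow]
    norm_num
  have h5 : A.card = (A.filter (fun a => OnFlat (n - k) (line A d (number d a)) (place d a))).card +
      (A.filter (fun a => ¬ OnFlat (n - k) (line A d (number d a)) (place d a))).card :=
    (card_filter_add_card_filter_not (s := A)
        (fun a => OnFlat (n - k) (line A d (number d a)) (place d a))).symm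
  rw [h5, add_mul]
  refine add_le_add ?_ hbad
  rw [mul_comm]
  exact Nat.mul_le_mul_left _ hgood'

end Pool.Agent.E8helper87.DB
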